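import Pool.Agent.Helper60.FV.OA1
import Pool.Agent.Helper53.FV.OA2
import Pool.Agent.Helper26.FV.DF
import Pool.Agent.Helper3.FV.OA3

/-!
# Definability of the tracial ultrapower (block GR, part 1)
-/

open Filter

namespace Pool.Agent.Helper89.FV

open Pool.Agent.Helper96.Fc

namespace GR

variable {N : Set ZFSet.{0}}

/-! ### Definable relations -/

theorem dor {R S : (ℕ → ZFSet.{0}) → Prop} (hR : Dfb N R) (hS : Dfb N S) :
    Dfb N (fun v => R v ∨ S v) :=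
  (hR.neg.and hS.neg).neg.congr fun v _ => by simp only [not_and_or, not_not]

theorem dimp {R S : (ℕ → ZFSet.{0}) → Prop} (hR : Dfb N R) (hS : Dfb N S) :
    Dfb N (fun v => R v → S v) :=
  (hR.and hS.neg).neg.congr fun v _ => by simp only [not_and, not_not]

theorem dex {R : (ℕ → ZFSet.{0}) → Prop} (hR : Dfb N R) :
    Dfb N (fun v => ∃ x ∈ N, R (cns x v)) :=
  hR.neg.all.neg.congr fun _ _ => by
    push Not
    rfl

theorem diff {R S : (ℕ → ZFSet.{0}) → Prop} (hR : Dfb N R) (hS : Dfb N S) :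
    Dfb N (fun v => R v ↔ S v) :=
  ((dimp hR hS).and (dimp hS hR)).congr fun v _ => iff_iff_implies_and_implies.symm

/-- bounded existential quantifier -/
theorem dexb {R : (ℕ → ZFSet.{0}) → Prop} (i : ℕ) (hR : Dfb N R) :
    Dfb N (fun v => ∃ x ∈ N, x ∈ v i ∧ R (cns x v)) :=
  dex ((Dfb.mem 0 (i + 1)).and hR)

/-- bounded universal quantifier -/
theorem dallb {R : (ℕ → ZFSet.{0}) → Prop} (i : ℕ) (hR : Dfb N R) :
    Dfb N (fun v => ∀ x ∈ N, x ∈ v i → R (cns x v)) :=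
  (dimp (Dfb.mem 0 (i + 1)) hR).all

variable (hN : IsZFC N)
include hN

theorem dpm (i j k : ℕ) : Dfb N (fun v => ZFSet.pair (v i) (v j) ∈ v k) :=
  (dex ((Dfb.pair hN 0 (i + 1) (j + 1)).and (Dfb.mem 0 (k + 1)))).congr fun v hv => by
    constructor
    · rintro ⟨x, -, h1, h2⟩
      change x = ZFSet.pair (v i) (v j) at h1
      change x ∈ v k at h2
      rwa [← h1]
    · intro h
      exact ⟨_, hN.trans _ (hv k) _ h, rfl, h⟩

theorem dtm (i j l k : ℕ) : Dfb N (fun v => ZFSet.pair (ZFSet.pair (v i) (v j)) (v l) ∈ v k) :=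
  (dex ((Dfb.pair hN 0 (i + 1) (j + 1)).and (dpm hN 0 (l + 1) (k + 1)))).congr fun v hv => by
    constructor
    · rintro ⟨x, -, h1, h2⟩
      change x = ZFSet.pair (v i) (v j) at h1
      change ZFSet.pair x (v l) ∈ v k at h2
      rwa [← h1]
    · intro h
      exact ⟨_, (pair_mem_iff hN).2 ⟨hv i, hv j⟩, rfl, h⟩

omit hN in
theorem cns_mem {x : ZFSet.{0}} {v : ℕ → ZFSet.{0}} (hx : x ∈ N) (hv : ∀ i, v i ∈ N) :
    ∀ i, cns x v i ∈ N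
  | 0 => hx
  | i + 1 => hv i

/-- separation of pairs -/
theorem sep2 {R : (ℕ → ZFSet.{0}) → Prop} (h : Dfb N R) {v : ℕ → ZFSet.{0}} (hv : ∀ i, v i ∈ N)
    {a b : ZFSet.{0}} (ha : a ∈ N) (hb : b ∈ N) :
    ∃ c ∈ N, ∀ z, z ∈ c ↔ ∃ x ∈ a, ∃ y ∈ b, z = ZFSet.pair x y ∧ R (cns x (cns y v)) := by
  obtain ⟨c, hc, hc'⟩ := exists_prod hN ha hb
  let g : ℕ → ℕ := fun i => match i with
    | 0 => 1
    | 1 => 0
    | i + 2 => i + 3
  obtain ⟨d, hd, hd'⟩ := Dfb.sep hN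
    (dex (dex ((Dfb.pair hN 2 1 0).and (h.ren g)))) hv hc
  have key : ∀ x y z : ZFSet.{0}, (fun i => cns y (cns x (cns z v)) (g i)) = cns x (cns y v) := by
    intro x y z
    funext i
    match i with
    | 0 => rfl
    | 1 => rfl
    | i + 2 => rfl
  refine ⟨d, hd, fun z => ?_⟩
  rw [hd', hc']
  constructor
  · rintro ⟨⟨x', hx', y', hy', he⟩, x, -, y, -, h1, h2⟩
    rw [key] at h2
    change z = ZFSet.pair x y at h1
    obtain ⟨e1, e2⟩ := ZFSet.pair_injective (he.symm.trans h1)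
    subst e1 e2
    exact ⟨x', hx', y', hy', he, h2⟩
  · rintro ⟨x, hx, y, hy, h1, h2⟩
    refine ⟨⟨x, hx, y, hy, h1⟩, x, hN.trans _ ha _ hx, y, hN.trans _ hb _ hy, h1, ?_⟩
    rw [key]
    exact h2

/-! ### Sequences -/

omit hN in
theorem mem_graph {x : ℕ → ℕ} {n : ℕ} {K : ZFSet.{0}} :
    ZFSet.pair (nat n) K ∈ graph x ↔ K = nat (x n) := by
  constructor
  · intro h
    unfold graph at h
    rw [ZFSet.mem_range] at h
    obtain ⟨m, hm⟩ := h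
    obtain ⟨h1, h2⟩ := ZFSet.pair_injective hm
    rw [nat_inj h1] at h2
    exact h2.symm
  · rintro rfl
    exact pair_mem_graph.2 rfl

/-- the formula `x ~ y` -/
def EqF (N : Set ZFSet.{0}) (x y U T o : ZFSet.{0}) : Prop :=
  ∀ m ∈ N, m ∈ o → ∃ z ∈ N, z ∈ U ∧ ∀ n ∈ N, n ∈ z → ∃ k ∈ N, ∃ l ∈ N,
    ZFSet.pair n k ∈ x ∧ ZFSet.pair n l ∈ y ∧ ZFSet.pair (ZFSet.pair k l) m ∈ T

theorem dEqF (x y u t o : ℕ) : Dfb N (fun v => EqF N (v x) (v y) (v u) (v t) (v o)) :=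
  (dallb o (dexb (u + 1) (dallb 0 (dex (dex (((dpm hN 2 1 (x + 5)).and
    ((dpm hN 2 0 (y + 5)).and (dtm hN 1 0 4 (t + 5)))))))))).congr fun _ _ => Iff.rfl

/-- the formula `x y = z` -/
def MulF (N : Set ZFSet.{0}) (x y z T o : ZFSet.{0}) : Prop :=
  ∀ n ∈ N, n ∈ o → ∃ k ∈ N, ∃ l ∈ N, ∃ m ∈ N,
    ZFSet.pair n k ∈ x ∧ ZFSet.pair n l ∈ y ∧ ZFSet.pair n m ∈ z ∧
      ZFSet.pair (ZFSet.pair k l) m ∈ T

theorem dMulF (x y z t o : ℕ) : Dfb N (fun v => MulF N (v x) (v y) (v z) (v t) (v o)) :=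
  (dallb o (dex (dex (dex ((dpm hN 3 2 (x + 4)).and ((dpm hN 3 1 (y + 4)).and
    ((dpm hN 3 0 (z + 4)).and (dtm hN 2 1 0 (t + 4))))))))).congr fun _ _ => Iff.rfl

/-- the formula `x^* = z` -/
def AdjF (N : Set ZFSet.{0}) (x z T o e : ZFSet.{0}) : Prop :=
  ∀ n ∈ N, n ∈ o → ∃ k ∈ N, ∃ m ∈ N,
    ZFSet.pair n k ∈ x ∧ ZFSet.pair n m ∈ z ∧ ZFSet.pair (ZFSet.pair k e) m ∈ T

theorem dAdjF (x z t o e : ℕ) : Dfb N (fun v => AdjF N (v x) (v z) (v t) (v o) (v e)) :=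
  (dallb o (dex (dex ((dpm hN 2 1 (x + 3)).and ((dpm hN 2 0 (z + 3)).and
    (dtm hN 1 (e + 3) 0 (t + 3))))))).congr fun _ _ => Iff.rfl

/-- the formula `x` is bounded -/
def BddF (N : Set ZFSet.{0}) (x T o e : ZFSet.{0}) : Prop :=
  ∃ c ∈ N, c ∈ o ∧ ∀ n ∈ N, n ∈ o → ∃ k ∈ N, ZFSet.pair n k ∈ x ∧ ZFSet.pair (ZFSet.pair k e) c ∈ T

theorem dBddF (x t o e : ℕ) : Dfb N (fun v => BddF N (v x) (v t) (v o) (v e)) :=
  (dexb o (dallb (o + 1) (dex ((dpm hN 1 0 (x + 3)).and (dtm hN 0 (e + 3) 2 (t + 3)))))).congr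
    fun _ _ => Iff.rfl

/-! ### Semantics -/

theorem eqF_iff {U T : ZFSet.{0}} (hU : FreeUltra N U)
    (hT : ∀ z, z ∈ T ↔ ∃ k l m : ℕ, nsq (dec k - dec l) < 1 / ((m : ℝ) + 1) ∧
      z = ZFSet.pair (ZFSet.pair (nat k) (nat l)) (nat m)) (x y : ℕ → ℕ) :
    EqF N (graph x) (graph y) U T om ↔ Eqv U (fun n => dec (x n)) (fun n => dec (y n)) := by
  have hT' : ∀ k l m : ℕ, ZFSet.pair (ZFSet.pair (nat k) (nat l)) (nat m) ∈ T ↔
      nsq (dec k - dec l) < 1 / ((m : ℝ) + 1) := by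
    intro k l m
    rw [hT]
    constructor
    · rintro ⟨k', l', m', h, he⟩
      obtain ⟨h1, h2⟩ := ZFSet.pair_injective he
      obtain ⟨h3, h4⟩ := ZFSet.pair_injective h1
      rwa [nat_inj h3, nat_inj h4, nat_inj h2]
    · intro h
      exact ⟨k, l, m, h, rfl⟩
  constructor
  · intro h ε hε
    obtain ⟨m, hm⟩ := exists_nat_one_div_lt hε
    obtain ⟨z, -, hz, h1⟩ := h (nat m) (nat_mem hN m) (mem_om.2 ⟨m, rfl⟩)
    refine ⟨z, hz, fun n hn => ?_⟩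
    obtain ⟨k, -, l, -, h2, h3, h4⟩ := h1 (nat n) (nat_mem hN n) hn
    rw [mem_graph] at h2 h3
    subst h2 h3
    rw [hT'] at h4
    rw [abs_of_nonneg (nsq_nonneg _)]
    exact h4.trans hm
  · intro h m _ hmo
    obtain ⟨m, rfl⟩ := mem_om.1 hmo
    obtain ⟨z, hz, h1⟩ := h (1 / ((m : ℝ) + 1)) (by positivity)
    refine ⟨z, hN.trans _ hU.mem _ hz, hz, fun n _ hn => ?_⟩
    obtain ⟨n, rfl⟩ := mem_om.1 (hU.sub z hz hn)
    refine ⟨nat (x n), nat_mem hN _, nat (y n), nat_mem hN _, mem_graph.2 rfl, mem_graph.2 rfl, ?_⟩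
    rw [hT']
    exact lt_of_abs_lt (h1 n hn)

theorem mulF_iff {T : ZFSet.{0}} {f : ℕ → ℕ → ℕ}
    (hT : ∀ z, z ∈ T ↔ ∃ k l m, m = f k l ∧ z = ZFSet.pair (ZFSet.pair (nat k) (nat l)) (nat m))
    (x y z : ℕ → ℕ) :
    MulF N (graph x) (graph y) (graph z) T om ↔ ∀ n, z n = f (x n) (y n) := by
  have hT' : ∀ k l m : ℕ, ZFSet.pair (ZFSet.pair (nat k) (nat l)) (nat m) ∈ T ↔ m = f k l := by
    intro k l m
    rw [hT]
    constructor
    · rintro ⟨k', l', m', h, he⟩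
      obtain ⟨h1, h2⟩ := ZFSet.pair_injective he
      obtain ⟨h3, h4⟩ := ZFSet.pair_injective h1
      rwa [nat_inj h3, nat_inj h4, nat_inj h2]
    · intro h
      exact ⟨k, l, m, h, rfl⟩
  constructor
  · intro h n
    obtain ⟨k, -, l, -, m, -, h2, h3, h4, h5⟩ := h (nat n) (nat_mem hN n) (mem_om.2 ⟨n, rfl⟩)
    rw [mem_graph] at h2 h3 h4
    subst h2 h3 h4
    exact (hT' _ _ _).1 h5
  · intro h n _ hn
    obtain ⟨n, rfl⟩ := mem_om.1 hn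
    exact ⟨nat (x n), nat_mem hN _, nat (y n), nat_mem hN _, nat (z n), nat_mem hN _,
      mem_graph.2 rfl, mem_graph.2 rfl, mem_graph.2 rfl, (hT' _ _ _).2 (h n)⟩

theorem adjF_iff {T : ZFSet.{0}} {f : ℕ → ℕ}
    (hT : ∀ z, z ∈ T ↔ ∃ k l m, (l = 0 ∧ m = f k) ∧
      z = ZFSet.pair (ZFSet.pair (nat k) (nat l)) (nat m)) (x z : ℕ → ℕ) :
    AdjF N (graph x) (graph z) T om (nat 0) ↔ ∀ n, z n = f (x n) := by
  have hT' : ∀ k m : ℕ, ZFSet.pair (ZFSet.pair (nat k) (nat 0)) (nat m) ∈ T ↔ m = f k := by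
    intro k m
    rw [hT]
    constructor
    · rintro ⟨k', l', m', ⟨-, h⟩, he⟩
      obtain ⟨h1, h2⟩ := ZFSet.pair_injective he
      obtain ⟨h3, h4⟩ := ZFSet.pair_injective h1
      rwa [nat_inj h3, nat_inj h2]
    · intro h
      exact ⟨k, 0, m, ⟨rfl, h⟩, rfl⟩
  constructor
  · intro h n
    obtain ⟨k, -, m, -, h2, h4, h5⟩ := h (nat n) (nat_mem hN n) (mem_om.2 ⟨n, rfl⟩)
    rw [mem_graph] at h2 h4
    subst h2 h4
    exact (hT' _ _).1 h5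
  · intro h n _ hn
    obtain ⟨n, rfl⟩ := mem_om.1 hn
    exact ⟨nat (x n), nat_mem hN _, nat (z n), nat_mem hN _,
      mem_graph.2 rfl, mem_graph.2 rfl, (hT' _ _).2 (h n)⟩

theorem bddF_iff {T : ZFSet.{0}}
    (hT : ∀ z, z ∈ T ↔ ∃ k l m, (l = 0 ∧ OpLe m (dec k)) ∧
      z = ZFSet.pair (ZFSet.pair (nat k) (nat l)) (nat m)) (x : ℕ → ℕ) :
    BddF N (graph x) T om (nat 0) ↔ ∃ C, ∀ n, OpLe C (dec (x n)) := by
  have hT' : ∀ k m : ℕ, ZFSet.pair (ZFSet.pair (nat k) (nat 0)) (nat m) ∈ T ↔ OpLe m (dec k) := by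
    intro k m
    rw [hT]
    constructor
    · rintro ⟨k', l', m', ⟨-, h⟩, he⟩
      obtain ⟨h1, h2⟩ := ZFSet.pair_injective he
      obtain ⟨h3, h4⟩ := ZFSet.pair_injective h1
      rwa [nat_inj h3, nat_inj h2]
    · intro h
      exact ⟨k, 0, m, ⟨rfl, h⟩, rfl⟩
  constructor
  · rintro ⟨c, -, hc, h⟩
    obtain ⟨C, rfl⟩ := mem_om.1 hc
    refine ⟨C, fun n => ?_⟩
    obtain ⟨k, -, h2, h3⟩ := h (nat n) (nat_mem hN n) (mem_om.2 ⟨n, rfl⟩)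
    rw [mem_graph] at h2
    subst h2
    exact (hT' _ _).1 h3
  · rintro ⟨C, hC⟩
    refine ⟨nat C, nat_mem hN _, mem_om.2 ⟨C, rfl⟩, fun n _ hn => ?_⟩
    obtain ⟨n, rfl⟩ := mem_om.1 hn
    exact ⟨nat (x n), nat_mem hN _, mem_graph.2 rfl, (hT' _ _).2 (hC n)⟩

/-- separation of triples -/
theorem sep3 {R : (ℕ → ZFSet.{0}) → Prop} (h : Dfb N R) {v : ℕ → ZFSet.{0}} (hv : ∀ i, v i ∈ N)
    {a : ZFSet.{0}} (ha : a ∈ N) :
    ∃ c ∈ N, ∀ z, z ∈ c ↔ ∃ x ∈ a, ∃ y ∈ a, ∃ w ∈ a, z = ZFSet.pair (ZFSet.pair x y) w ∧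
      R (cns x (cns y (cns w v))) := by
  obtain ⟨b, hb, hb'⟩ := exists_prod hN ha ha
  let g : ℕ → ℕ := fun i => match i with
    | 0 => 1
    | 1 => 0
    | i + 2 => i + 3
  obtain ⟨d, hd, hd'⟩ := sep2 hN (dex (dex ((Dfb.pair hN 2 1 0).and (h.ren g)))) hv hb ha
  have key : ∀ x y s w : ZFSet.{0}, (fun i => cns y (cns x (cns s (cns w v))) (g i)) =
      cns x (cns y (cns w v)) := by
    intro x y s w
    funext i
    match i with
    | 0 => rfl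
    | 1 => rfl
    | i + 2 => rfl
  refine ⟨d, hd, fun z => ?_⟩
  rw [hd']
  constructor
  · rintro ⟨s, hs, w, hw, h1, x, -, y, -, h2, h3⟩
    rw [hb'] at hs
    obtain ⟨x', hx', y', hy', he⟩ := hs
    rw [key] at h3
    change s = ZFSet.pair x y at h2
    obtain ⟨e1, e2⟩ := ZFSet.pair_injective (he.symm.trans h2)
    subst e1 e2
    exact ⟨x', hx', y', hy', w, hw, by rw [h1, h2], h3⟩
  · rintro ⟨x, hx, y, hy, w, hw, h1, h2⟩
    refine ⟨ZFSet.pair x y, (hb' _).2 ⟨x, hx, y, hy, rfl⟩, w, hw, h1, x, hN.trans _ ha _ hx, y,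
      hN.trans _ ha _ hy, rfl, ?_⟩
    rw [key]
    exact h2

end GR

end Pool.Agent.Helper89.FV
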