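import Pool.Agent.Helper82.FV.GR1

/-!
# The unitary group of the tracial ultrapower as a group of the model (block GR, part 2)
-/

open Filter

namespace Pool.Agent.Helper89.FV

open Pool.Agent.Helper96.Fc

namespace GR

/-- The tables and the sets of sequences. -/
structure Dat (N : Set ZFSet.{0}) (U : ZFSet.{0}) where
  Tm : ZFSet.{0}
  Ta : ZFSet.{0}
  Td : ZFSet.{0}
  To : ZFSet.{0}
  c : ZFSet.{0}
  Un : ZFSet.{0}
  fm : ℕ → ℕ → ℕ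
  fa : ℕ → ℕ
  k1 : ℕ
  hfm : ∀ k l, dec (fm k l) = dec k * dec l
  hfa : ∀ k, dec (fa k) = adj (dec k)
  hk1 : dec k1 = 1
  Tm_mem : Tm ∈ N
  Ta_mem : Ta ∈ N
  Td_mem : Td ∈ N
  To_mem : To ∈ N
  c_mem : c ∈ N
  Un_mem : Un ∈ N
  hTm : ∀ z, z ∈ Tm ↔ ∃ k l m, m = fm k l ∧ z = ZFSet.pair (ZFSet.pair (nat k) (nat l)) (nat m)
  hTa : ∀ z, z ∈ Ta ↔ ∃ k l m, (l = 0 ∧ m = fa k) ∧
      z = ZFSet.pair (ZFSet.pair (nat k) (nat l)) (nat m)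
  hTd : ∀ z, z ∈ Td ↔ ∃ k l m : ℕ, nsq (dec k - dec l) < 1 / ((m : ℝ) + 1) ∧
      z = ZFSet.pair (ZFSet.pair (nat k) (nat l)) (nat m)
  hTo : ∀ z, z ∈ To ↔ ∃ k l m, (l = 0 ∧ OpLe m (dec k)) ∧
      z = ZFSet.pair (ZFSet.pair (nat k) (nat l)) (nat m)
  hc : ∀ z, z ∈ c ↔ ∃ x : ℕ → ℕ, z = graph x ∧ graph x ∈ N
  hUn : ∀ z, z ∈ Un ↔ ∃ x : ℕ → ℕ, z = graph x ∧ Uni N U x

variable {N : Set ZFSet.{0}} (hN : IsZFC N) {U : ZFSet.{0}} (hU : FreeUltra N U)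

/-- the parameters -/
noncomputable def par (U Tm Ta Td To one c : ZFSet.{0}) : ℕ → ZFSet.{0} :=
  cns U (cns Tm (cns Ta (cns Td (cns To (cns om (cns (nat 0) (cns one (cns c fun _ => om))))))))

include hN

theorem par_mem {U Tm Ta Td To one c : ZFSet.{0}} (h1 : U ∈ N) (h2 : Tm ∈ N) (h3 : Ta ∈ N)
    (h4 : Td ∈ N) (h5 : To ∈ N) (h6 : one ∈ N) (h7 : c ∈ N) :
    ∀ i, par U Tm Ta Td To one c i ∈ N :=
  cns_mem h1 (cns_mem h2 (cns_mem h3 (cns_mem h4 (cns_mem h5 (cns_mem (om_mem hN)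
    (cns_mem (nat_mem hN 0) (cns_mem h6 (cns_mem h7 fun _ => om_mem hN))))))))

include hU

theorem exists_dat (hT : Tabs N) : Nonempty (Dat N U) := by
  obtain ⟨⟨fm, hfm, Tm, Tm_mem, hTm⟩, ⟨fa, hfa, Ta, Ta_mem, hTa⟩, ⟨Td, Td_mem, hTd⟩,
    ⟨To, To_mem, hTo⟩⟩ := hT
  obtain ⟨k1, hk1⟩ := exists_onec
  obtain ⟨c, c_mem, hc⟩ := exists_seqs hN
  have one_mem := graph_const hN k1
  have hR := ((dBddF hN 0 5 6 7).and (dexb 9 ((dAdjF hN 1 0 4 7 8).and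
    ((dexb 10 ((dMulF hN 1 2 0 4 8).and (dEqF hN 0 10 3 6 8))).and
    (dexb 10 ((dMulF hN 2 1 0 4 8).and (dEqF hN 0 10 3 6 8)))))))
  obtain ⟨Un, Un_mem, hUn⟩ := Dfb.sep hN hR
    (par_mem hN hU.mem Tm_mem Ta_mem Td_mem To_mem one_mem c_mem) c_mem
  refine ⟨⟨Tm, Ta, Td, To, c, Un, fm, fa, k1, hfm, hfa, hk1, Tm_mem, Ta_mem, Td_mem, To_mem, c_mem,
    Un_mem, hTm, hTa, hTd, hTo, hc, fun z => ?_⟩⟩
  rw [hUn]
  constructor
  · rintro ⟨hz, h⟩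
    obtain ⟨x, rfl, hx⟩ := (hc z).1 hz
    refine ⟨x, rfl, ?_⟩
    change BddF N (graph x) To om (nat 0) ∧ ∃ a ∈ N, a ∈ c ∧ (AdjF N (graph x) a Ta om (nat 0) ∧
      (∃ w ∈ N, w ∈ c ∧ MulF N a (graph x) w Tm om ∧ EqF N w (graph fun _ => k1) U Td om) ∧
      (∃ w ∈ N, w ∈ c ∧ MulF N (graph x) a w Tm om ∧ EqF N w (graph fun _ => k1) U Td om)) at h
    obtain ⟨h1, a, -, ha, h2, ⟨w, -, hw, h3, h4⟩, ⟨w', -, hw', h5, h6⟩⟩ := h
    obtain ⟨a, rfl, ha'⟩ := (hc a).1 ha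
    obtain ⟨w, rfl, hw⟩ := (hc w).1 hw
    obtain ⟨w', rfl, hw'⟩ := (hc w').1 hw'
    rw [bddF_iff hN hTo] at h1
    rw [adjF_iff hN hTa] at h2
    rw [mulF_iff hN hTm] at h3 h5
    rw [eqF_iff hN hU hTd] at h4 h6
    simp only [h3, h5, h2, hfm, hfa, hk1] at h4 h6
    exact ⟨hx, h1, h4, h6⟩
  · rintro ⟨x, rfl, hx⟩
    refine ⟨(hc _).2 ⟨x, rfl, hx.mem⟩, ?_⟩
    change BddF N (graph x) To om (nat 0) ∧ ∃ a ∈ N, a ∈ c ∧ (AdjF N (graph x) a Ta om (nat 0) ∧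
      (∃ w ∈ N, w ∈ c ∧ MulF N a (graph x) w Tm om ∧ EqF N w (graph fun _ => k1) U Td om) ∧
      (∃ w ∈ N, w ∈ c ∧ MulF N (graph x) a w Tm om ∧ EqF N w (graph fun _ => k1) U Td om))
    have h1 : graph (fun n => fa (x n)) ∈ N := graph_comp₁ hN ⟨Ta, Ta_mem, hTa⟩ hx.mem
    have h2 : graph (fun n => fm (fa (x n)) (x n)) ∈ N :=
      graph_comp₂ hN ⟨Tm, Tm_mem, hTm⟩ h1 hx.mem
    have h3 : graph (fun n => fm (x n) (fa (x n))) ∈ N :=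
      graph_comp₂ hN ⟨Tm, Tm_mem, hTm⟩ hx.mem h1
    refine ⟨(bddF_iff hN hTo _).2 hx.bdd, _, h1, (hc _).2 ⟨_, rfl, h1⟩,
      (adjF_iff hN hTa _ _).2 fun n => rfl,
      ⟨_, h2, (hc _).2 ⟨_, rfl, h2⟩, (mulF_iff hN hTm _ _ _).2 fun n => rfl, ?_⟩,
      ⟨_, h3, (hc _).2 ⟨_, rfl, h3⟩, (mulF_iff hN hTm _ _ _).2 fun n => rfl, ?_⟩⟩
    · rw [eqF_iff hN hU hTd]
      simp only [hfm, hfa, hk1]
      exact hx.left
    · rw [eqF_iff hN hU hTd]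
      simp only [hfm, hfa, hk1]
      exact hx.right

variable (D : Dat N U)

omit hN hU in
/-- the parameters -/
noncomputable def Dat.P : ℕ → ZFSet.{0} :=
  par U D.Tm D.Ta D.Td D.To (graph fun _ => D.k1) D.c

theorem Dat.P_mem : ∀ i, D.P i ∈ N :=
  par_mem hN hU.mem D.Tm_mem D.Ta_mem D.Td_mem D.To_mem (graph_const hN _) D.c_mem

/-- the formula `x y ~ w` -/
def PrF (N : Set ZFSet.{0}) (x y w U Tm Td o c : ZFSet.{0}) : Prop :=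
  ∃ p ∈ N, p ∈ c ∧ MulF N x y p Tm o ∧ EqF N p w U Td o

omit hU in
theorem dPrF (x y w u tm td o c : ℕ) :
    Dfb N (fun v => PrF N (v x) (v y) (v w) (v u) (v tm) (v td) (v o) (v c)) :=
  (dexb c ((dMulF hN (x + 1) (y + 1) 0 (tm + 1) (o + 1)).and
    (dEqF hN 0 (w + 1) (u + 1) (td + 1) (o + 1)))).congr fun _ _ => Iff.rfl

theorem Dat.prF_iff {x y w : ℕ → ℕ} (hx : graph x ∈ N) (hy : graph y ∈ N) :
    PrF N (graph x) (graph y) (graph w) U D.Tm D.Td om D.c ↔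
      Eqv U (fun n => dec (x n) * dec (y n)) (fun n => dec (w n)) := by
  constructor
  · rintro ⟨p, -, hp, h1, h2⟩
    obtain ⟨p, rfl, -⟩ := (D.hc p).1 hp
    rw [mulF_iff hN D.hTm] at h1
    rw [eqF_iff hN hU D.hTd] at h2
    simpa only [h1, D.hfm] using h2
  · intro h
    have h1 : graph (fun n => D.fm (x n) (y n)) ∈ N := graph_comp₂ hN ⟨D.Tm, D.Tm_mem, D.hTm⟩ hx hy
    refine ⟨_, h1, (D.hc _).2 ⟨_, rfl, h1⟩, (mulF_iff hN D.hTm _ _ _).2 fun n => rfl, ?_⟩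
    rw [eqF_iff hN hU D.hTd]
    simpa only [D.hfm] using h

/-! ### The classes -/

omit hN hU in
/-- The class of a sequence. -/
noncomputable def Dat.cl (x : ℕ → ℕ) : ZFSet.{0} :=
  ZFSet.sep (fun y => ∃ y' : ℕ → ℕ, y = graph y' ∧
    Eqv U (fun n => dec (x n)) (fun n => dec (y' n))) D.Un

omit hN hU in
theorem Dat.mem_cl {x : ℕ → ℕ} {z : ZFSet.{0}} : z ∈ D.cl x ↔
    ∃ y : ℕ → ℕ, z = graph y ∧ Uni N U y ∧ Eqv U (fun n => dec (x n)) (fun n => dec (y n)) := by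
  unfold Dat.cl
  rw [ZFSet.mem_sep, D.hUn]
  constructor
  · rintro ⟨⟨y, rfl, h1⟩, y', h2, h3⟩
    rw [graph_inj h2] at h1 ⊢
    exact ⟨y', rfl, h1, h3⟩
  · rintro ⟨y, rfl, h1, h2⟩
    exact ⟨⟨y, rfl, h1⟩, y, rfl, h2⟩

omit hN hU in
theorem Dat.graph_mem_cl {x y : ℕ → ℕ} : graph y ∈ D.cl x ↔
    Uni N U y ∧ Eqv U (fun n => dec (x n)) (fun n => dec (y n)) := by
  rw [D.mem_cl]
  constructor
  · rintro ⟨y', h1, h2⟩
    rwa [graph_inj h1]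
  · intro h
    exact ⟨y, rfl, h⟩

theorem Dat.cl_mem {x : ℕ → ℕ} (hx : Uni N U x) : D.cl x ∈ N := by
  have hv : ∀ i, cns (graph x) D.P i ∈ N := cns_mem hx.mem (D.P_mem hN hU)
  obtain ⟨b, hb, hb'⟩ := Dfb.sep hN (dEqF hN 1 0 2 5 7) hv D.Un_mem
  have : D.cl x = b := by
    ext z
    rw [hb', D.mem_cl, D.hUn]
    constructor
    · rintro ⟨y, rfl, h1, h2⟩
      refine ⟨⟨y, rfl, h1⟩, ?_⟩
      change EqF N (graph x) (graph y) U D.Td om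
      rwa [eqF_iff hN hU D.hTd]
    · rintro ⟨⟨y, rfl, h1⟩, h2⟩
      change EqF N (graph x) (graph y) U D.Td om at h2
      rw [eqF_iff hN hU D.hTd] at h2
      exact ⟨y, rfl, h1, h2⟩
  rw [this]
  exact hb

omit hN in
include hU in
theorem Dat.cl_eq_iff {x y : ℕ → ℕ} (hy : Uni N U y) : D.cl x = D.cl y ↔
    Eqv U (fun n => dec (x n)) (fun n => dec (y n)) := by
  constructor
  · intro h
    have h1 : graph y ∈ D.cl x := by
      rw [h, D.graph_mem_cl]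
      exact ⟨hy, Eqv.refl hU _⟩
    exact (D.graph_mem_cl.1 h1).2
  · intro h
    ext z
    rw [D.mem_cl, D.mem_cl]
    constructor
    · rintro ⟨w, rfl, h1, h2⟩
      exact ⟨w, rfl, h1, h.symm.trans hU h2⟩
    · rintro ⟨w, rfl, h1, h2⟩
      exact ⟨w, rfl, h1, h.trans hU h2⟩

theorem Dat.exists_S : ∃ S ∈ N, ∀ z, z ∈ S ↔ ∃ x, Uni N U x ∧ z = D.cl x := by
  obtain ⟨Q, hQ, hQ'⟩ := exists_powerset hN D.Un_mem
  have hv : ∀ i, cns D.Un D.P i ∈ N := cns_mem D.Un_mem (D.P_mem hN hU)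
  -- `C = 0`, `Un = 1`, `U = 2`, `Tm = 3`, `Ta = 4`, `Td = 5`, `To = 6`, `om = 7`
  obtain ⟨S, hS, hS'⟩ := Dfb.sep hN
    (dexb 1 (dallb 2 (diff (Dfb.mem 0 2) (dEqF hN 1 0 4 7 9)))) hv hQ
  refine ⟨S, hS, fun z => ?_⟩
  rw [hS', hQ']
  constructor
  · rintro ⟨⟨hz, hzs⟩, x, -, hx, h⟩
    change x ∈ D.Un at hx
    obtain ⟨x, rfl, hx'⟩ := (D.hUn x).1 hx
    refine ⟨x, hx', ?_⟩
    change ∀ y ∈ N, y ∈ D.Un → (y ∈ z ↔ EqF N (graph x) y U D.Td om) at h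
    ext w
    rw [D.mem_cl]
    constructor
    · intro hw
      obtain ⟨y, rfl, hy⟩ := (D.hUn w).1 (hzs hw)
      have := (h _ hy.mem ((D.hUn _).2 ⟨y, rfl, hy⟩)).1 hw
      rw [eqF_iff hN hU D.hTd] at this
      exact ⟨y, rfl, hy, this⟩
    · rintro ⟨y, rfl, hy, h1⟩
      refine (h _ hy.mem ((D.hUn _).2 ⟨y, rfl, hy⟩)).2 ?_
      rwa [eqF_iff hN hU D.hTd]
  · rintro ⟨x, hx, rfl⟩
    refine ⟨⟨D.cl_mem hN hU hx, fun w hw => ?_⟩, graph x, hx.mem, (D.hUn _).2 ⟨x, rfl, hx⟩, ?_⟩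
    · obtain ⟨y, rfl, hy, -⟩ := D.mem_cl.1 hw
      exact (D.hUn _).2 ⟨y, rfl, hy⟩
    · change ∀ y ∈ N, y ∈ D.Un → (y ∈ D.cl x ↔ EqF N (graph x) y U D.Td om)
      intro y _ hy
      obtain ⟨y, rfl, hy'⟩ := (D.hUn y).1 hy
      rw [eqF_iff hN hU D.hTd, D.graph_mem_cl]
      exact ⟨fun h => h.2, fun h => ⟨hy', h⟩⟩

/-! ### The group -/

/-- The data of the group. -/
structure GD (N : Set ZFSet.{0}) (U : ZFSet.{0}) extends Dat N U where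
  hN : IsZFC N
  hU : FreeUltra N U
  hT : Tabs N
  S : ZFSet.{0}
  S_mem : S ∈ N
  hS : ∀ z, z ∈ S ↔ ∃ x, Uni N U x ∧ z = toDat.cl x

omit hN hU in
theorem exists_gd (hN : IsZFC N) (hU : FreeUltra N U) (hT : Tabs N) : Nonempty (GD N U) := by
  obtain ⟨D⟩ := exists_dat hN hU hT
  obtain ⟨S, h1, h2⟩ := D.exists_S hN hU
  exact ⟨⟨D, hN, hU, hT, S, h1, h2⟩⟩

omit hN hU in
theorem comb_mul (hN : IsZFC N) (hU : FreeUltra N U) (hT : Tabs N) {x y : ℕ → ℕ}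
    (hx : Uni N U x) (hy : Uni N U y) : ∃ z, Uni N U z ∧ ∀ n, dec (z n) = dec (x n) * dec (y n) :=
  Uni.mul hN hU hT hx hy

namespace GD

omit hN hU

variable (D : GD N U)

/-- The element of the group of a sequence. -/
noncomputable def el (x : ℕ → ℕ) (hx : Uni N U x) : {g // g ∈ D.S} :=
  ⟨D.cl x, (D.hS _).2 ⟨x, hx, rfl⟩⟩

theorem exists_el (g : {g // g ∈ D.S}) : ∃ x, ∃ hx : Uni N U x, g = D.el x hx := by
  obtain ⟨x, hx, h⟩ := (D.hS _).1 g.2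
  exact ⟨x, hx, Subtype.ext h⟩

theorem el_eq_iff {x y : ℕ → ℕ} (hx : Uni N U x) (hy : Uni N U y) : D.el x hx = D.el y hy ↔
    Eqv U (fun n => dec (x n)) (fun n => dec (y n)) := by
  rw [← D.cl_eq_iff D.hU hy]
  exact Subtype.ext_iff

theorem mem_el {x y : ℕ → ℕ} (hx : Uni N U x) : graph y ∈ (D.el x hx).1 ↔
    Uni N U y ∧ Eqv U (fun n => dec (x n)) (fun n => dec (y n)) := D.graph_mem_cl

/-- a representative -/
noncomputable def rp (g : {g // g ∈ D.S}) : ℕ → ℕ := (D.exists_el g).choose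

theorem rp_uni (g : {g // g ∈ D.S}) : Uni N U (D.rp g) := (D.exists_el g).choose_spec.choose

theorem el_rp (g : {g // g ∈ D.S}) : D.el (D.rp g) (D.rp_uni g) = g :=
  (D.exists_el g).choose_spec.choose_spec.symm

/-- multiplication -/
noncomputable def mul (g h : {g // g ∈ D.S}) : {g // g ∈ D.S} :=
  D.el (Uni.mul D.hN D.hU D.hT (D.rp_uni g) (D.rp_uni h)).choose
    (Uni.mul D.hN D.hU D.hT (D.rp_uni g) (D.rp_uni h)).choose_spec.1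

theorem mul_el {x y w : ℕ → ℕ} (hx : Uni N U x) (hy : Uni N U y) (hw : Uni N U w) :
    D.mul (D.el x hx) (D.el y hy) = D.el w hw ↔
      Eqv U (fun n => dec (x n) * dec (y n)) (fun n => dec (w n)) := by
  have h1 := D.el_rp (D.el x hx)
  have h2 := D.el_rp (D.el y hy)
  rw [el_eq_iff] at h1 h2
  have h3 := (Uni.mul D.hN D.hU D.hT (D.rp_uni (D.el x hx)) (D.rp_uni (D.el y hy))).choose_spec.2
  have h4 : Eqv U (fun n => dec ((Uni.mul D.hN D.hU D.hT (D.rp_uni (D.el x hx))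
      (D.rp_uni (D.el y hy))).choose n)) (fun n => dec (x n) * dec (y n)) := by
    simp only [h3]
    exact Eqv.mul D.hU h1 h2 (D.rp_uni _).bdd hx.bdd
  unfold mul
  rw [el_eq_iff]
  exact ⟨fun h => h4.symm.trans D.hU h, fun h => h4.trans D.hU h⟩

/-- the neutral element -/
noncomputable def one : {g // g ∈ D.S} := D.el (fun _ => D.k1) (Uni.one D.hN D.hU D.hk1)

/-- the inverse -/
noncomputable def inv (g : {g // g ∈ D.S}) : {g // g ∈ D.S} :=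
  D.el (Uni.adj D.hN D.hU D.hT (D.rp_uni g)).choose
    (Uni.adj D.hN D.hU D.hT (D.rp_uni g)).choose_spec.1

/-- the group -/
@[reducible] noncomputable def grp : Group {g // g ∈ D.S} :=
  letI : Mul {g // g ∈ D.S} := ⟨D.mul⟩
  letI : One {g // g ∈ D.S} := ⟨D.one⟩
  letI : Inv {g // g ∈ D.S} := ⟨D.inv⟩
  Group.ofLeftAxioms
    (by
      intro g h k
      change D.mul (D.mul g h) k = D.mul g (D.mul h k)
      obtain ⟨x, hx, rfl⟩ := D.exists_el g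
      obtain ⟨y, hy, rfl⟩ := D.exists_el h
      obtain ⟨z, hz, rfl⟩ := D.exists_el k
      obtain ⟨p, hp, hp'⟩ := Uni.mul D.hN D.hU D.hT hx hy
      obtain ⟨q, hq, hq'⟩ := Uni.mul D.hN D.hU D.hT hp hz
      obtain ⟨r, hr, hr'⟩ := Uni.mul D.hN D.hU D.hT hy hz
      have e1 : D.mul (D.el x hx) (D.el y hy) = D.el p hp := by
        rw [mul_el]
        simp only [hp']
        exact Eqv.refl D.hU _
      have e2 : D.mul (D.el p hp) (D.el z hz) = D.el q hq := by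
        rw [mul_el]
        simp only [hq']
        exact Eqv.refl D.hU _
      have e3 : D.mul (D.el y hy) (D.el z hz) = D.el r hr := by
        rw [mul_el]
        simp only [hr']
        exact Eqv.refl D.hU _
      have e4 : D.mul (D.el x hx) (D.el r hr) = D.el q hq := by
        rw [mul_el]
        simp only [hq', hr', hp', mul_assoc]
        exact Eqv.refl D.hU _
      rw [e1, e2, e3, e4])
    (by
      intro g
      change D.mul D.one g = g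
      obtain ⟨x, hx, rfl⟩ := D.exists_el g
      unfold one
      rw [mul_el]
      simp only [D.hk1, one_mul]
      exact Eqv.refl D.hU _)
    (by
      intro g
      change D.mul (D.inv g) g = D.one
      have h1 := (Uni.adj D.hN D.hU D.hT (D.rp_uni g)).choose_spec.2
      have h2 : D.mul (D.inv g) (D.el (D.rp g) (D.rp_uni g)) = D.one := by
        unfold one inv
        rw [mul_el]
        simp only [h1, D.hk1]
        exact (D.rp_uni g).left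
      rwa [D.el_rp] at h2)

theorem el_of_mem {g : {g // g ∈ D.S}} {x : ℕ → ℕ} (h : graph x ∈ g.1) :
    ∃ hx : Uni N U x, g = D.el x hx := by
  obtain ⟨y, hy, rfl⟩ := D.exists_el g
  rw [mem_el] at h
  exact ⟨h.1, (D.el_eq_iff hy h.1).2 h.2⟩

theorem mem_self {x : ℕ → ℕ} (hx : Uni N U x) : graph x ∈ (D.el x hx).1 :=
  (D.mem_el hx).2 ⟨hx, Eqv.refl D.hU _⟩

theorem graph_of_mem {g : {g // g ∈ D.S}} {z : ZFSet.{0}} (h : z ∈ g.1) :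
    ∃ x, ∃ hx : Uni N U x, z = graph x ∧ g = D.el x hx := by
  have h' := h
  obtain ⟨y, hy, rfl⟩ := D.exists_el g
  obtain ⟨x, rfl, -, -⟩ := D.mem_cl.1 h'
  obtain ⟨hx, e⟩ := D.el_of_mem h
  exact ⟨x, hx, rfl, e⟩

theorem exists_m : ∃ m ∈ N, ∀ z, z ∈ m ↔ ∃ g h : {g // g ∈ D.S},
    z = ZFSet.pair (ZFSet.pair g.1 h.1) (D.mul g h).1 := by
  obtain ⟨m, hm, hm'⟩ := sep3 D.hN (dexb 0 (dexb 2 (dexb 4 (dPrF D.hN 2 1 0 6 7 9 11 14))))
    (D.P_mem D.hN D.hU) D.S_mem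
  refine ⟨m, hm, fun z => ?_⟩
  rw [hm']
  constructor
  · rintro ⟨g, hg, h, hh, k, hk, rfl, x, -, hx, y, -, hy, w, -, hw, H⟩
    change PrF N x y w U D.Tm D.Td om D.c at H
    obtain ⟨x, hx', rfl, e1⟩ := D.graph_of_mem (g := ⟨g, hg⟩) hx
    obtain ⟨y, hy', rfl, e2⟩ := D.graph_of_mem (g := ⟨h, hh⟩) hy
    obtain ⟨w, hw', rfl, e3⟩ := D.graph_of_mem (g := ⟨k, hk⟩) hw
    rw [D.prF_iff D.hN D.hU hx'.mem hy'.mem] at H
    refine ⟨⟨g, hg⟩, ⟨h, hh⟩, ?_⟩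
    have : D.mul ⟨g, hg⟩ ⟨h, hh⟩ = ⟨k, hk⟩ := by
      rw [e1, e2, e3, mul_el]
      exact H
    rw [this]
  · rintro ⟨g, h, rfl⟩
    refine ⟨g.1, g.2, h.1, h.2, (D.mul g h).1, (D.mul g h).2, rfl, ?_⟩
    obtain ⟨x, hx, e1⟩ := D.exists_el g
    obtain ⟨y, hy, e2⟩ := D.exists_el h
    obtain ⟨w, hw, e3⟩ := D.exists_el (D.mul g h)
    refine ⟨graph x, hx.mem, ?_, graph y, hy.mem, ?_, graph w, hw.mem, ?_, ?_⟩
    · change graph x ∈ g.1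
      rw [e1]
      exact D.mem_self hx
    · change graph y ∈ h.1
      rw [e2]
      exact D.mem_self hy
    · change graph w ∈ (D.mul g h).1
      rw [e3]
      exact D.mem_self hw
    · change PrF N (graph x) (graph y) (graph w) U D.Tm D.Td om D.c
      rw [D.prF_iff D.hN D.hU hx.mem hy.mem, ← D.mul_el hx hy hw, ← e1, ← e2, ← e3]

theorem exists_theta : ∃ θ, HomIn N U D.S D.grp θ ∧ Inj U D.S D.grp θ := by
  obtain ⟨θ, hθ, hθ'⟩ := sep2 D.hN (Dfb.mem 1 0) (D.P_mem D.hN D.hU) D.S_mem D.Un_mem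
  have key : ∀ (g : {g // g ∈ D.S}) (x : ℕ → ℕ), ZFSet.pair g.1 (graph x) ∈ θ ↔
      graph x ∈ g.1 := by
    intro g x
    rw [hθ']
    constructor
    · rintro ⟨c, -, y, -, h1, h2⟩
      obtain ⟨e1, e2⟩ := ZFSet.pair_injective h1
      change y ∈ c at h2
      rwa [← e1, ← e2] at h2
    · intro h
      obtain ⟨hx, -⟩ := D.el_of_mem h
      exact ⟨g.1, g.2, graph x, (D.hUn _).2 ⟨x, rfl, hx⟩, rfl, h⟩
  refine ⟨θ, ⟨hθ, ?_, ?_, ?_⟩, ?_⟩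
  · intro z hz
    obtain ⟨g, hg, y, hy, rfl, -⟩ := (hθ' z).1 hz
    obtain ⟨x, rfl, hx⟩ := (D.hUn y).1 hy
    exact ⟨⟨g, hg⟩, x, rfl, hx⟩
  · intro g
    refine ⟨D.rp g, (key g _).2 ?_⟩
    have := D.mem_self (D.rp_uni g)
    rwa [D.el_rp] at this
  · intro g h x y z h1 h2 h3
    rw [key] at h1 h2 h3
    obtain ⟨hx, e1⟩ := D.el_of_mem h1
    obtain ⟨hy, e2⟩ := D.el_of_mem h2
    obtain ⟨hz, e3⟩ := D.el_of_mem h3
    rw [← D.mul_el hx hy hz, ← e1, ← e2, ← e3]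
    rfl
  · intro g x h1 h2
    rw [key] at h1
    obtain ⟨hx, e1⟩ := D.el_of_mem h1
    rw [e1]
    change _ = D.one
    unfold one
    rw [el_eq_iff]
    simpa only [D.hk1] using h2

theorem no_pi (hno : ¬ ∃ π, SeqHom N U π) :
    ¬ ∃ π, HomIn N U D.S D.grp π ∧ TraceZero U D.S D.grp π := by
  rintro ⟨π, hπ, hπ0⟩
  apply hno
  have hv : ∀ i, cns D.S (cns π D.P) i ∈ N := cns_mem D.S_mem (cns_mem hπ.mem (D.P_mem D.hN D.hU))
  obtain ⟨ρ, hρ, hρ'⟩ := sep2 D.hN (dexb 2 ((Dfb.mem 1 0).and (dpm D.hN 0 2 4))) hv D.Un_mem D.c_mem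
  have uni : ∀ (g : {g // g ∈ D.S}) (s : ℕ → ℕ), ZFSet.pair g.1 (graph s) ∈ π → Uni N U s := by
    intro g s h
    obtain ⟨g', s', h1, h2⟩ := hπ.sub _ h
    obtain ⟨-, e2⟩ := ZFSet.pair_injective h1
    rwa [graph_inj e2]
  have key : ∀ x s : ℕ → ℕ, ZFSet.pair (graph x) (graph s) ∈ ρ ↔
      ∃ hx : Uni N U x, ZFSet.pair (D.el x hx).1 (graph s) ∈ π := by
    intro x s
    rw [hρ']
    constructor
    · rintro ⟨X, -, Y, -, h1, c, -, hc, h3, h4⟩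
      obtain ⟨e1, e2⟩ := ZFSet.pair_injective h1
      change X ∈ c at h3
      change ZFSet.pair c Y ∈ π at h4
      change c ∈ D.S at hc
      rw [← e1] at h3
      rw [← e2] at h4
      obtain ⟨hx, e⟩ := D.el_of_mem (g := ⟨c, hc⟩) h3
      refine ⟨hx, ?_⟩
      rw [← e]
      exact h4
    · rintro ⟨hx, h⟩
      refine ⟨graph x, (D.hUn _).2 ⟨x, rfl, hx⟩, graph s, (D.hc _).2 ⟨s, rfl, (uni _ _ h).mem⟩, rfl,
        (D.el x hx).1, D.hN.trans _ D.S_mem _ (D.el x hx).2, (D.el x hx).2, D.mem_self hx, h⟩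
  refine ⟨ρ, hρ, ?_, ?_, ?_, ?_⟩
  · intro z hz
    obtain ⟨X, hX, Y, hY, rfl, c, -, hc, h3, h4⟩ := (hρ' z).1 hz
    obtain ⟨x, rfl, hx⟩ := (D.hUn X).1 hX
    obtain ⟨y, rfl, -⟩ := (D.hc Y).1 hY
    exact ⟨x, y, rfl, hx, uni ⟨c, hc⟩ y h4⟩
  · intro x hx
    obtain ⟨s, hs⟩ := hπ.tot (D.el x hx)
    exact ⟨s, (key x s).2 ⟨hx, hs⟩⟩
  · intro x s y t z w h1 h2 h3 h
    obtain ⟨hx, h1⟩ := (key _ _).1 h1
    obtain ⟨hy, h2⟩ := (key _ _).1 h2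
    obtain ⟨hz, h3⟩ := (key _ _).1 h3
    rw [← D.mul_el hx hy hz] at h
    refine hπ.mul _ _ s t w h1 h2 ?_
    change ZFSet.pair (D.mul (D.el x hx) (D.el y hy)).1 (graph w) ∈ π
    rwa [h]
  · intro x s h1 h2
    obtain ⟨hx, h1⟩ := (key _ _).1 h1
    refine hπ0 _ s h1 fun h3 => h2 ?_
    change _ = D.one at h3
    unfold one at h3
    rw [el_eq_iff] at h3
    simpa only [D.hk1] using h3

end GD

end GR

/-- Block GR: the group `Γ = U(R^U)` of `N`. -/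
theorem exists_group {N : Set ZFSet.{0}} (hN : IsZFC N) {U : ZFSet.{0}} (hU : FreeUltra N U)
    (hT : Tabs N) (hno : ¬ ∃ π, SeqHom N U π) :
    ∃ (S m : ZFSet.{0}) (G : Group {g // g ∈ S}), GroupIn N S m G ∧
      (∃ θ, HomIn N U S G θ ∧ Inj U S G θ) ∧ ¬ ∃ π, HomIn N U S G π ∧ TraceZero U S G π := by
  obtain ⟨D⟩ := GR.exists_gd hN hU hT
  obtain ⟨m, hm, hm'⟩ := D.exists_m
  exact ⟨D.S, m, D.grp, ⟨D.S_mem, hm, hm'⟩, D.exists_theta, D.no_pi hno⟩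

end Pool.Agent.Helper89.FV
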